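import Mathlib

set_option autoImplicit false

namespace Pool.Agent.Results.MP_887aa5_nt.Counter

/-- the Gaussian power sum `G_n(p)` -/
def G (n p : ℕ) : GaussianInt :=
  ∑ a ∈ Finset.Icc 1 (p - 1), ∑ b ∈ Finset.Icc 1 (p - 1), (⟨a, b⟩ : GaussianInt) ^ n

/-- `v_p(x + y i) = min (v_p x) (v_p y)`, with `v_p 0 = ⊤` -/
noncomputable def v (p : ℕ) (z : GaussianInt) : ℕ∞ :=
  min (emultiplicity (p : ℤ) z.re) (emultiplicity (p : ℤ) z.im)

theorem result : 5 ≤ v 7 (G (5 * (7 - 1)) 7) ∧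
    ¬ (∀ p r : ℕ, p.Prime → p % 4 = 3 → 7 ≤ p → 1 ≤ r →
      (Even r → v p (G (r * (p - 1)) p) = 0) ∧ (Odd r → v p (G (r * (p - 1)) p) = 3)) := by
  have h : 5 ≤ v 7 (G (5 * (7 - 1)) 7) := by
    have h1 : ((7 : ℕ) : ℤ) ^ 5 ∣ (G (5 * (7 - 1)) 7).re := by decide +kernel
    have h2 : ((7 : ℕ) : ℤ) ^ 5 ∣ (G (5 * (7 - 1)) 7).im := by decide +kernel
    exact le_min (le_emultiplicity_of_pow_dvd h1) (le_emultiplicity_of_pow_dvd h2)
  refine ⟨h, fun H => ?_⟩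
  rw [(H 7 5 (by norm_num) (by norm_num) le_rfl (by norm_num)).2 (by decide)] at h
  exact absurd h (by decide)

end Pool.Agent.Results.MP_887aa5_nt.Counter
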